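import Pool.Agent.ISB.StmtsA

/-!
# Squad ISB, row NLA (MP_4f548a_al): eigenvectors in the metabelian sections
-/

set_option autoImplicit false

namespace Pool.Agent.ISB.H51

open scoped Classical

variable {F L : Type} [Field F] [LieRing L] [LieAlgebra F L]

theorem ln_append (u : L) (cs ds : List L) : ln u (cs ++ ds) = ln (ln u cs) ds := by
  unfold ln
  rw [List.foldl_append]

theorem ln_zero (cs : List L) : ln (0 : L) cs = 0 := by
  induction cs with
  | nil => rfl
  | cons c cs ih =>
    show ln ⁅(0 : L), c⁆ cs = 0
    rw [zero_lie]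
    exact ih

theorem ln_mem_itr (A B : Submodule F L) (u : L) (hu : u ∈ A) (cs : List L)
    (hcs : ∀ c ∈ cs, c ∈ B) : ln u cs ∈ itr A B cs.length := by
  induction cs using List.reverseRecOn with
  | nil => exact hu
  | append_singleton cs c ih =>
    rw [ln_append, List.length_append]
    show ⁅ln u cs, c⁆ ∈ br (itr A B cs.length) B
    refine Submodule.subset_span ⟨ln u cs, ih (fun d hd => hcs d ?_), c, hcs c ?_, rfl⟩
    · simp [hd]
    · simp

theorem nla (h1 : IdlStmt) (h2 : EigStmt) (_h3 : MltStmt) (h4 : ComStmt) (h5 : PghStmt)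
    (h6 : EonStmt) (h7 : NlxStmt) : NlaStmt := by
  intro F L _ _ _ r n σ ζ R H hr hA hC t a u hu hua cs hlen hcs
  obtain ⟨hstb, hitr, -⟩ := h6 F L r n σ ζ R H hA hC
  obtain ⟨hmono, -, -, -⟩ := h1 F L (Submodule.span F R) hstb.cl
  obtain ⟨hW, hWb, -, -⟩ := h2 F L r σ ζ hA
  have hWr : ∀ m, W σ ζ (r * m) = W σ ζ 0 := by
    intro m
    induction m with
    | zero => rfl
    | succ m ih => rw [Nat.mul_succ, hW, ih]
  -- the weight
  let f : L → ℕ := fun c =>
    if h : ∃ e < r, c ∈ dr (Submodule.span F R) t ⊓ W σ ζ e then h.choose else 0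
  have hf : ∀ c ∈ cs, f c < r ∧ c ∈ dr (Submodule.span F R) t ∧ c ∈ W σ ζ (f c) := by
    intro c hc
    have h := hcs c hc
    have hfc : f c = h.choose := dif_pos h
    rw [hfc]
    exact ⟨h.choose_spec.1, h.choose_spec.2.1, h.choose_spec.2.2⟩
  have hdrA : ∀ s, dr (Submodule.span F R) s ≤ Submodule.span F R := fun s =>
    hmono 0 s (Nat.zero_le s)
  -- permutations do not matter
  have hperm : ∀ ds : List L, cs.Perm ds → ln u ds ∈ dr (Submodule.span F R) (t + 2) →
      ln u cs ∈ dr (Submodule.span F R) (t + 2) := by
    intro ds hds h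
    have h' := (h4 F L (Submodule.span F R) hstb.cl t cs (fun c hc => (hf c hc).2.1)).2.1 u hu
      ds hds
    have := Submodule.add_mem _ h' h
    rwa [sub_add_cancel] at this
  set l0 : List L := cs.filter (fun c => decide (f c = 0)) with hl0
  set l1 : List L := cs.filter (fun c => !decide (f c = 0)) with hl1
  have hp : cs.Perm (l0 ++ l1) := (List.filter_append_perm (fun c => decide (f c = 0)) cs).symm
  have hl0m : ∀ c ∈ l0, c ∈ cs ∧ f c = 0 := by
    intro c hc
    have := List.mem_filter.1 hc
    exact ⟨this.1, by simpa using this.2⟩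
  have hl1m : ∀ c ∈ l1, c ∈ cs ∧ f c ≠ 0 := by
    intro c hc
    have := List.mem_filter.1 hc
    exact ⟨this.1, by simpa using this.2⟩
  have hlen2 : l0.length + l1.length = a0 r n := by
    rw [← hlen, hp.length_eq, List.length_append]
  by_cases hn : n ≤ l0.length
  · -- many fixed points
    refine hperm (l0.take n ++ (l0.drop n ++ l1)) ?_ ?_
    · rw [← List.append_assoc, List.take_append_drop]
      exact hp
    · rw [ln_append]
      have h0 : ln u (l0.take n) = 0 := by
        have hm := ln_mem_itr (Submodule.span F R) (Submodule.span F R ⊓ W σ ζ 0) u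
          (hdrA _ hu) (l0.take n) (fun c hc => by
            have hc' := hl0m c (List.mem_of_mem_take hc)
            have hc2 := hf c hc'.1
            rw [hc'.2] at hc2
            exact ⟨hdrA _ hc2.2.1, hc2.2.2⟩)
        rw [List.length_take, min_eq_left hn, hitr] at hm
        exact (Submodule.mem_bot F).1 hm
      rw [h0, ln_zero]
      exact Submodule.zero_mem _
  · push Not at hn
    have hrpos : 0 < r := hr.pos
    have hbig : r * r < l1.length := by
      have : a0 r n = n + r * r + r * n := rfl
      have h3 : 0 ≤ r * n := Nat.zero_le _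
      omega
    obtain ⟨k, hk, m1, m2, hpm, hm1, hm1k⟩ := h5 L r r f l1
      (fun c hc => (hf c (hl1m c hc).1).1) hbig
    have hm1l : ∀ c ∈ m1, c ∈ l1 := fun c hc => hpm.mem_iff.2 (List.mem_append_left _ hc)
    have hm2l : ∀ c ∈ m2, c ∈ l1 := fun c hc => hpm.mem_iff.2 (List.mem_append_right _ hc)
    have hk0 : k ≠ 0 := by
      have hne : m1 ≠ [] := by
        intro h
        rw [h] at hm1
        simp at hm1
      obtain ⟨c, hc⟩ := List.exists_mem_of_ne_nil m1 hne
      have := (hl1m c (hm1l c hc)).2
      rwa [hm1k c hc] at this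
    -- the number of steps
    obtain ⟨j, hj, hjk⟩ : ∃ j < r, r ∣ a + j * k := by
      have : Fact r.Prime := ⟨hr⟩
      have hk' : (k : ZMod r) ≠ 0 := by
        intro h
        rw [ZMod.natCast_eq_zero_iff] at h
        exact absurd (Nat.le_of_dvd (Nat.pos_of_ne_zero hk0) h) (by omega)
      refine ⟨(-(a : ZMod r) * (k : ZMod r)⁻¹).val, ZMod.val_lt _, ?_⟩
      rw [← ZMod.natCast_eq_zero_iff]
      push_cast
      rw [ZMod.natCast_zmod_val, mul_assoc, inv_mul_cancel₀ hk']
      ring
    have hWk : ∀ (l : List L) (i : ℕ) (v : L), v ∈ W σ ζ i → (∀ c ∈ l, c ∈ W σ ζ k) →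
        ln v l ∈ W σ ζ (i + l.length * k) := by
      intro l
      induction l with
      | nil =>
        intro i v hv _
        simpa [ln] using hv
      | cons c l ih =>
        intro i v hv hl
        have h1 := ih (i + k) ⁅v, c⁆ (hWb i k v hv c (hl c (by simp)))
          (fun d hd => hl d (by simp [hd]))
        have h2 : i + k + l.length * k = i + (c :: l).length * k := by
          rw [List.length_cons]
          ring
        rw [h2] at h1
        exact h1
    refine hperm (m1.take j ++ (m1.drop j ++ m2 ++ l0)) ?_ ?_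
    · have e : m1.take j ++ (m1.drop j ++ m2 ++ l0) = (m1 ++ m2) ++ l0 := by
        rw [List.append_assoc (m1.drop j), ← List.append_assoc (m1.take j),
          List.take_append_drop, List.append_assoc]
      rw [e]
      exact hp.trans (List.perm_append_comm.trans (hpm.append_right l0))
    · rw [ln_append]
      have hu0 : ln u (m1.take j) ∈ dr (Submodule.span F R) (t + 1) :=
        (h4 F L (Submodule.span F R) hstb.cl t (m1.take j) (fun c hc =>
          (hf c (hl1m c (hm1l c (List.mem_of_mem_take hc))).1).2.1)).1 u hu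
      have hu1 : ln u (m1.take j) ∈ W σ ζ 0 := by
        have h := hWk (m1.take j) a u hua (fun c hc => by
          have hc1 := List.mem_of_mem_take hc
          have hc2 := (hf c (hl1m c (hm1l c hc1)).1).2.2
          rwa [hm1k c hc1] at hc2)
        rw [List.length_take, hm1, min_eq_left (by omega)] at h
        obtain ⟨m, hm⟩ := hjk
        rw [hm, hWr] at h
        exact h
      refine h7 F L r n σ ζ R H hA hC t (ln u (m1.take j)) hu0 hu1 _ ?_ ?_
      · have e1 : (m1.drop j ++ m2 ++ l0).length = a0 r n - j := by
          have e2 : l1.length = m1.length + m2.length := by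
            rw [hpm.length_eq, List.length_append]
          rw [List.length_append, List.length_append, List.length_drop]
          omega
        rw [e1]
        have e3 : a0 r n = n + r * r + r * n := rfl
        have e4 : r ≤ r * r := Nat.le_mul_of_pos_left r hrpos
        omega
      · intro c hc
        rw [List.mem_append, List.mem_append] at hc
        rcases hc with (hc | hc) | hc
        · exact (hf c (hl1m c (hm1l c (List.mem_of_mem_drop hc))).1).2.1
        · exact (hf c (hl1m c (hm2l c hc)).1).2.1
        · exact (hf c (hl0m c hc).1).2.1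

end Pool.Agent.ISB.H51
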